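import Mathlib
import Pool.Agent.Lib.MP_5bc52d_co.Lin.Leib

/-!
# Derivations modulo a prime
-/

open Finset Polynomial

namespace Pool.Agent.Lib.MP_5bc52d_co

namespace Splitting

variable {A : Type*} [CommRing A] (S : Splitting A)

/-- additive, and a derivation on `T` modulo `p` -/
structure IsDerM (p : ℕ) (T : Subring A) (D : A → A) : Prop where
  add : ∀ f g, D (f + g) = D f + D g
  mem : ∀ f ∈ T, D f ∈ T
  mul : ∀ f ∈ T, ∀ g ∈ T, ∃ h ∈ T, D (f * g) = f * D g + g * D f + (p : A) * h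

theorem IsDerM.zero {p : ℕ} {T : Subring A} {D : A → A} (h : IsDerM p T D) : D 0 = 0 := by
  have := h.add 0 0
  rw [add_zero] at this
  exact left_eq_add.mp this

theorem IsDerM.sum {p : ℕ} {T : Subring A} {D : A → A} (h : IsDerM p T D) {ι : Type*}
    (s : Finset ι) (f : ι → A) : D (∑ i ∈ s, f i) = ∑ i ∈ s, D (f i) :=
  map_sum (AddMonoidHom.mk' D h.add) f s

theorem isDerM_iter {p : ℕ} (hp : p.Prime) (k : ℕ) (T : Subring A)
    (hT : ∀ k, ∀ f ∈ T, S.qp k f ∈ T) : IsDerM p T ((S.qp 1)^[p ^ k]) := by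
  have hHS := S.isDer_one.isHS
  have hmem : ∀ (m : ℕ), ∀ f ∈ T, (S.qp 1)^[m] f ∈ T := by
    intro m
    induction m with
    | zero => exact fun f hf => hf
    | succ m ih =>
      intro f hf
      rw [Function.iterate_succ_apply']
      exact hT 1 _ (ih f hf)
  refine ⟨hHS.add (p ^ k), hmem (p ^ k), fun f hf g hg => ?_⟩
  have hq : 0 < p ^ k := pow_pos hp.pos k
  set q := p ^ k with hqdef
  have h1 : ((0 : ℕ), q) ∈ antidiagonal q := by
    rw [HasAntidiagonal.mem_antidiagonal]
    simp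
  have h2 : (q, (0 : ℕ)) ∈ (antidiagonal q).erase (0, q) := by
    rw [Finset.mem_erase, HasAntidiagonal.mem_antidiagonal]
    refine ⟨fun h => ?_, by simp⟩
    have := congrArg Prod.fst h
    simp only at this
    omega
  have h3 := hHS.mul q f g
  beta_reduce at h3
  rw [← Finset.add_sum_erase _ _ h1, ← Finset.add_sum_erase _ _ h2] at h3
  refine ⟨∑ ij ∈ ((antidiagonal q).erase (0, q)).erase (q, 0),
    ((q.choose ij.1 / p : ℕ) : A) * ((S.qp 1)^[ij.1] f * (S.qp 1)^[ij.2] g), ?_, ?_⟩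
  · apply T.sum_mem
    intro ij _
    exact T.mul_mem (natCast_mem T _) (T.mul_mem (hmem _ f hf) (hmem _ g hg))
  · rw [h3, Finset.mul_sum]
    have h4 : ∀ ij ∈ ((antidiagonal q).erase (0, q)).erase (q, 0),
        (q.choose ij.1 : A) * ((S.qp 1)^[ij.1] f * (S.qp 1)^[ij.2] g) =
        (p : A) * (((q.choose ij.1 / p : ℕ) : A) *
          ((S.qp 1)^[ij.1] f * (S.qp 1)^[ij.2] g)) := by
      intro ij hij
      rw [Finset.mem_erase, Finset.mem_erase, HasAntidiagonal.mem_antidiagonal] at hij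
      have h5 : p ∣ q.choose ij.1 := by
        apply hp.dvd_choose_pow
        · intro h6
          apply hij.2.1
          ext
          · exact h6
          · simp only; omega
        · intro h6
          apply hij.1
          ext
          · exact h6
          · simp only; omega
      have h6 : (q.choose ij.1 : A) = (p : A) * ((q.choose ij.1 / p : ℕ) : A) := by
        rw [← Nat.cast_mul, Nat.mul_div_cancel' h5]
      rw [h6]
      ring
    rw [Finset.sum_congr rfl h4]
    simp only [Nat.choose_zero_right, Nat.choose_self, Nat.cast_one, Function.iterate_zero, id]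
    ring

theorem coeff_Nhat_mem (T : AddSubgroup A) (hN : ∀ x ∈ T, ∀ k, (S.N x).coeff k ∈ T) (p : A[X])
    (hp : ∀ k, p.coeff k ∈ T) (c : ℕ) : (S.Nhat p).coeff c ∈ T := by
  rw [Nhat, coe_eval₂RingHom, eval₂_eq_sum, Polynomial.sum, finsetSum_coeff]
  apply T.sum_mem
  intro k _
  rw [coeff_mul_X_pow']
  split_ifs
  · exact hN _ (hp k) _
  · exact T.zero_mem

theorem isDerM_cj {p : ℕ} {T : Subring A} (hT : ∀ k, ∀ f ∈ T, S.qp k f ∈ T) {D : A → A}
    (hD : IsDerM p T D) (c : ℕ) : IsDerM p T (S.cj D c) := by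
  have hN : ∀ x ∈ T, ∀ k, (S.N x).coeff k ∈ T := fun x hx k =>
    S.coeff_N_mem T.toAddSubgroup hT hx k
  have hc : ∀ (P : A[X]) (k : ℕ), (mapD D P).coeff k = D (P.coeff k) :=
    fun P k => coeff_mapD' hD.zero P k
  have hadd : ∀ P R : A[X], mapD D (P + R) = mapD D P + mapD D R := by
    intro P R
    ext1 k
    rw [coeff_add, hc, hc, hc, coeff_add, hD.add]
  refine ⟨fun f g => ?_, fun f hf => ?_, fun f hf g hg => ?_⟩
  · rw [cj, map_add, hadd, map_add, coeff_add]
    rfl
  · rw [cj]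
    apply S.coeff_Nhat_mem T.toAddSubgroup hN
    intro k
    rw [hc, S.coeff_E]
    exact hD.mem _ (hT k f hf)
  · set K : AddSubgroup A := T.toAddSubgroup.map (AddMonoidHom.mulLeft (p : A)) with hK
    have hmemK : ∀ x, x ∈ K ↔ ∃ h ∈ T, (p : A) * h = x := by
      intro x
      rw [hK, AddSubgroup.mem_map]
      exact Iff.rfl
    have hNK : ∀ x ∈ K, ∀ k, (S.N x).coeff k ∈ K := by
      intro x hx k
      rw [hmemK] at hx
      obtain ⟨h, hh, rfl⟩ := hx
      rw [hmemK]
      refine ⟨(S.N h).coeff k, hN h hh k, ?_⟩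
      rw [map_mul, map_natCast, ← C_eq_natCast, coeff_C_mul]
    set δ : A[X] := mapD D (S.E f * S.E g) - S.E f * mapD D (S.E g) - S.E g * mapD D (S.E f)
      with hδ
    have hδK : ∀ k, δ.coeff k ∈ K := by
      intro k
      have h1 : δ.coeff k = ∑ ij ∈ antidiagonal k, (D (S.qp ij.1 f * S.qp ij.2 g) -
          S.qp ij.1 f * D (S.qp ij.2 g) - S.qp ij.2 g * D (S.qp ij.1 f)) := by
        rw [hδ, mul_comm (S.E g), coeff_sub, coeff_sub, hc, coeff_mul, coeff_mul, coeff_mul,
          hD.sum, ← Finset.sum_sub_distrib, ← Finset.sum_sub_distrib]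
        apply Finset.sum_congr rfl
        intro ij _
        rw [hc, hc, S.coeff_E, S.coeff_E]
        ring
      rw [h1]
      apply K.sum_mem
      intro ij _
      obtain ⟨h, hh, h2⟩ := hD.mul _ (hT ij.1 f hf) _ (hT ij.2 g hg)
      rw [hmemK]
      refine ⟨h, hh, ?_⟩
      rw [h2]
      ring
    have h3 := S.coeff_Nhat_mem K hNK δ hδK c
    rw [hmemK] at h3
    obtain ⟨h, hh, h4⟩ := h3
    refine ⟨h, hh, ?_⟩
    have h5 : mapD D (S.E (f * g)) = S.E f * mapD D (S.E g) + S.E g * mapD D (S.E f) + δ := by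
      rw [hδ, map_mul]
      ring
    rw [h4, cj, h5, map_add, map_add, map_mul, map_mul, S.Nhat_E, S.Nhat_E, coeff_add, coeff_add,
      coeff_C_mul, coeff_C_mul]
    rfl

/-- iterated conjugation, from a given map -/
noncomputable def twB (D : A → A) : List ℕ → A → A
  | [] => D
  | c :: l => S.cj (twB D l) c

theorem isDerM_twB {p : ℕ} {T : Subring A} (hT : ∀ k, ∀ f ∈ T, S.qp k f ∈ T) {D : A → A}
    (hD : IsDerM p T D) (l : List ℕ) : IsDerM p T (S.twB D l) := by
  induction l with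
  | nil => exact hD
  | cons c l ih => exact S.isDerM_cj hT ih c

end Splitting

end Pool.Agent.Lib.MP_5bc52d_co
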