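import Mathlib
import Pool.Agent.Lib.MP_5bc52d_co.Grp.ModDer
import Pool.Agent.Lib.MP_5bc52d_co.Sym.Rep

/-!
# The conjugated maps on the generating functions of a labelled poset, with a general centre
-/

open Finset Polynomial

set_option linter.unusedSectionVars false

namespace Pool.Agent.Lib.MP_5bc52d_co

variable {P : Type*} [Fintype P] [DecidableEq P]

open Classical in
/-- signed number of ways to fill the letters, with a given weight of the centre -/
noncomputable def WB (r : P → P → Prop) (ω : P → ℤ) (B : Finset P → Finset P → ℤ) :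
    List ℕ → Finset P → Finset P → ℤ
  | [], U, M => B U M
  | c :: l, U, M' => ∑ x : Finset P × Finset P × Finset P,
      if Cond r ω c U M' x then (-1) ^ x.2.2.card * WB r ω B l (U \ x.1) x.2.1 else 0

section
variable {r : P → P → Prop} {ω : P → ℤ} {B : Finset P → Finset P → ℤ}

theorem WB_dn (hB : ∀ U M, B U M ≠ 0 → Dn r U M) {l : List ℕ} {U M : Finset P}
    (h : WB r ω B l U M ≠ 0) : Dn r U M := by
  classical
  cases l with
  | nil =>
    rw [WB] at h
    exact hB U M h
  | cons c l =>
    rw [WB] at h
    obtain ⟨x, -, hx⟩ := Finset.exists_ne_zero_of_sum_ne_zero h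
    split_ifs at hx with h1
    · exact h1.dn
    · exact absurd rfl hx

variable {A : Type*} [CommRing A] (S : Splitting A) (Γ : Finset P → A)

theorem twB_Gamma (hi : ∀ x, ¬ r x x) (hω : Function.Injective ω)
    (hE : ∀ U k, S.qp k (Γ U) = ∑ I ∈ (wks r ω U) with I.card = k, Γ (U \ I))
    (hB : ∀ U M, B U M ≠ 0 → Dn r U M) {p : ℕ} {T : Subring A}
    (hT : ∀ k, ∀ f ∈ T, S.qp k f ∈ T) {D : A → A} (hD : Splitting.IsDerM p T D)
    (hDB : ∀ U, D (Γ U) = ∑ M : Finset P, ((B U M : ℤ) : A) * Γ (U \ M))
    (l : List ℕ) (U : Finset P) :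
    S.twB D l (Γ U) = ∑ M : Finset P, ((WB r ω B l U M : ℤ) : A) * Γ (U \ M) := by
  classical
  induction l generalizing U with
  | nil => exact hDB U
  | cons c l ih =>
    have hl := S.isDerM_twB hT hD l
    have hsum : ∀ (s : Finset (Finset P)) (f : Finset P → A[X]),
        Splitting.mapD (S.twB D l) (∑ i ∈ s, f i) = ∑ i ∈ s, Splitting.mapD (S.twB D l) (f i) := by
      intro s f
      ext1 k
      rw [Splitting.coeff_mapD' hl.zero, finsetSum_coeff, finsetSum_coeff, hl.sum]
      apply Finset.sum_congr rfl
      intro i _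
      rw [Splitting.coeff_mapD' hl.zero]
    have hCX : ∀ (a : A) (k : ℕ), Splitting.mapD (S.twB D l) (C a * X ^ k) =
        C (S.twB D l a) * X ^ k := by
      intro a k
      ext1 j
      rw [Splitting.coeff_mapD' hl.zero, coeff_C_mul_X_pow, coeff_C_mul_X_pow]
      split_ifs
      · rfl
      · exact hl.zero
    have h1 : S.Nhat (Splitting.mapD (S.twB D l) (S.E (Γ U))) =
        ∑ I : Finset P, ∑ M : Finset P, ∑ J : Finset P,
          if Wk r ω U I ∧ Wk r (-ω) ((U \ I) \ M) J then
            C (((-1) ^ J.card * WB r ω B l (U \ I) M : ℤ) : A) *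
              (C (Γ (((U \ I) \ M) \ J)) * X ^ (I.card + J.card)) else 0 := by
      rw [E_Gamma S Γ hE, hsum, map_sum]
      rw [← Finset.sum_subset (Finset.subset_univ (wks r ω U))]
      · apply Finset.sum_congr rfl
        intro I hI
        rw [mem_wks] at hI
        rw [hCX, map_mul, map_pow, S.Nhat_C, S.Nhat_X, ih, map_sum,
          Finset.sum_mul]
        apply Finset.sum_congr rfl
        intro M _
        rw [map_mul, map_intCast, N_Gamma S Γ hi hω hE, Finset.mul_sum, Finset.sum_mul]
        rw [← Finset.sum_subset (Finset.subset_univ (wks r (-ω) ((U \ I) \ M)))]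
        · apply Finset.sum_congr rfl
          intro J hJ
          rw [mem_wks] at hJ
          rw [if_pos ⟨hI, hJ⟩, pow_add]
          simp only [Int.cast_mul, Int.cast_pow, Int.cast_neg, Int.cast_one, map_mul, map_pow,
            map_neg, map_one, map_intCast]
          ring
        · intro J _ hJ
          rw [mem_wks] at hJ
          rw [if_neg (fun h => hJ h.2)]
      · intro I _ hI
        rw [mem_wks] at hI
        apply Finset.sum_eq_zero
        intro M _
        apply Finset.sum_eq_zero
        intro J _
        rw [if_neg (fun h => hI h.1)]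
    have h2 : S.twB D (c :: l) (Γ U) = ∑ I : Finset P, ∑ M : Finset P, ∑ J : Finset P,
          if Wk r ω U I ∧ Wk r (-ω) ((U \ I) \ M) J ∧ I.card + J.card = c then
            (((-1) ^ J.card * WB r ω B l (U \ I) M : ℤ) : A) * Γ (((U \ I) \ M) \ J) else 0 := by
      rw [Splitting.twB, Splitting.cj, h1, finsetSum_coeff]
      apply Finset.sum_congr rfl
      intro I _
      rw [finsetSum_coeff]
      apply Finset.sum_congr rfl
      intro M _
      rw [finsetSum_coeff]
      apply Finset.sum_congr rfl
      intro J _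
      by_cases h : Wk r ω U I ∧ Wk r (-ω) ((U \ I) \ M) J
      · rw [if_pos h, coeff_C_mul, coeff_C_mul_X_pow]
        by_cases hc : I.card + J.card = c
        · rw [if_pos hc.symm, if_pos ⟨h.1, h.2, hc⟩]
        · rw [if_neg (Ne.symm hc), if_neg (fun h' => hc h'.2.2), mul_zero]
      · rw [if_neg h, if_neg (fun h' => h ⟨h'.1, h'.2.1⟩), coeff_zero]
    rw [h2]
    have h3 : ∀ M' : Finset P, ((WB r ω B (c :: l) U M' : ℤ) : A) * Γ (U \ M') =
        ∑ I : Finset P, ∑ M : Finset P, ∑ J : Finset P,
          if Cond r ω c U M' (I, M, J) then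
            (((-1) ^ J.card * WB r ω B l (U \ I) M : ℤ) : A) * Γ (U \ M') else 0 := by
      intro M'
      rw [WB, Int.cast_sum, Finset.sum_mul, Fintype.sum_prod_type]
      apply Finset.sum_congr rfl
      intro I _
      rw [Fintype.sum_prod_type]
      apply Finset.sum_congr rfl
      intro M _
      apply Finset.sum_congr rfl
      intro J _
      split_ifs with h
      · rfl
      · simp
    rw [Finset.sum_congr rfl (fun M' _ => h3 M'), sum_swap3]
    apply Finset.sum_congr rfl
    intro I _
    apply Finset.sum_congr rfl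
    intro M _
    apply Finset.sum_congr rfl
    intro J _
    by_cases h : Wk r ω U I ∧ Wk r (-ω) ((U \ I) \ M) J ∧ I.card + J.card = c
    · rw [if_pos h]
      by_cases hW : WB r ω B l (U \ I) M = 0
      · rw [hW]
        simp
      · have hd := WB_dn hB hW
        rw [Finset.sum_eq_single (I ∪ M ∪ J)]
        · rw [if_pos ⟨h.1, hd, h.2.1, h.2.2, rfl⟩]
          congr 2
          rw [sdiff_sdiff_left, sdiff_sdiff_left]
          simp only [Finset.sup_eq_union, Finset.union_assoc]
        · intro M' _ hM'
          rw [if_neg (fun h' => hM' h'.2.2.2.2.symm)]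
        · intro h'
          exact absurd (Finset.mem_univ _) h'
    · rw [if_neg h]
      symm
      apply Finset.sum_eq_zero
      intro M' _
      rw [if_neg (fun h' => h ⟨h'.1, h'.2.2.1, h'.2.2.2.1⟩)]

end

end Pool.Agent.Lib.MP_5bc52d_co
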