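import Mathlib
import Pool.Agent.Lib.MP_5bc52d_co.Grp.Rep
import Pool.Agent.Lib.MP_5bc52d_co.Sym.Equi
import Pool.Agent.Lib.MP_5bc52d_co.Sym.Fix

/-!
# Peeling off invariant parts in a unique way, down to a given set
-/

open Finset
open scoped Pointwise

set_option linter.unusedSectionVars false

namespace Pool.Agent.Lib.MP_5bc52d_co

section
variable {P : Type*} [DecidableEq P] {G : Type*} [Group G] [MulAction G P]

variable (G) in
/-- an increasing initial part and a decreasing final part of `M`, both invariant and disjoint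
from `F` -/
structure PrF (r : P → P → Prop) (ω : P → ℤ) (F M I J : Finset P) : Prop where
  low : Wk r ω M I
  high : Wk (fun a b => r b a) ω M J
  disj : Disjoint I J
  dI : Disjoint F I
  dJ : Disjoint F J
  invI : ∀ g : G, g • I = I
  invJ : ∀ g : G, g • J = J

theorem PrF.swap {r : P → P → Prop} {ω : P → ℤ} {F M I J : Finset P}
    (h : PrF G r ω F M I J) : PrF G (fun a b => r b a) ω F M J I :=
  ⟨h.high, h.low, h.disj.symm, h.dJ, h.dI, h.invJ, h.invI⟩

variable (G) in
/-- sets obtained from `F` by adding parts which can be removed in a unique way -/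
inductive PeelF (r : P → P → Prop) (ω : P → ℤ) (F : Finset P) : Finset P → Prop
  | base : PeelF r ω F F
  | step (M I J : Finset P) : PrF G r ω F M I J →
      (∀ I' J' : Finset P, PrF G r ω F M I' J' → I'.card + J'.card = I.card + J.card →
        I' = I ∧ J' = J) → PeelF r ω F (M \ (I ∪ J)) → PeelF r ω F M

theorem PeelF.swap {r : P → P → Prop} {ω : P → ℤ} {F M : Finset P}
    (h : PeelF G r ω F M) : PeelF G (fun a b => r b a) ω F M := by
  induction h with
  | base => exact PeelF.base
  | step M I J h1 h2 _ ih =>
    refine PeelF.step M J I h1.swap (fun I' J' h3 h4 => ?_) ?_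
    · have h5 := h2 J' I' h3.swap (by omega)
      exact ⟨h5.2, h5.1⟩
    · rwa [Finset.union_comm]

theorem PeelF.sub {r : P → P → Prop} {ω : P → ℤ} {F M : Finset P}
    (h : PeelF G r ω F M) : F ⊆ M := by
  induction h with
  | base => exact subset_rfl
  | step M I J _ _ _ ih => exact ih.trans Finset.sdiff_subset

theorem PeelF.inv {r : P → P → Prop} {ω : P → ℤ} {F : Finset P} (hF : ∀ g : G, g • F = F)
    {M : Finset P} (h : PeelF G r ω F M) (g : G) : g • M = M := by
  induction h with
  | base => exact hF g
  | step M I J h1 _ _ ih =>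
    have h2 : M = (M \ (I ∪ J)) ∪ (I ∪ J) := by
      rw [Finset.sdiff_union_of_subset]
      exact Finset.union_subset h1.low.1 h1.high.1
    rw [h2, Finset.smul_finset_union, ih, Finset.smul_finset_union, h1.invI, h1.invJ]

end

section
variable {P : Type*} [Fintype P] [DecidableEq P] [PartialOrder P]
variable {G : Type*} [Group G] [MulAction G P] {p : ℕ} [hp : Fact p.Prime]
variable {B : Finset P → Finset P → ℤ}

theorem WB_smul {ω : P → ℤ} (hω : Function.Injective ω) (h : Act G ω)
    (hB : ∀ U, Up U → ∀ (M : Finset P) (g : G), B (g • U) (g • M) = B U M) (l : List ℕ)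
    {U : Finset P} (hU : Up U) (M : Finset P) (g : G) :
    WB (fun a b : P => a < b) ω B l (g • U) (g • M) = WB (fun a b : P => a < b) ω B l U M := by
  classical
  induction l generalizing U M with
  | nil =>
    rw [WB, WB]
    exact hB U hU M g
  | cons c l ih =>
    rw [WB, WB]
    symm
    refine Fintype.sum_equiv (MulAction.toPerm g) _ _ (fun x => ?_)
    rw [MulAction.toPerm_apply]
    by_cases h1 : Cond (fun a b : P => a < b) ω c U M x
    · rw [if_pos h1, if_pos ((Cond.smul_iff hω h hU x g).mpr h1)]
      obtain ⟨I, M', J⟩ := x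
      change _ = (-1) ^ (g • J).card * WB _ ω B l (g • U \ g • I) (g • M')
      rw [← Finset.smul_finset_sdiff, ih (hU.sdiff h1.1.dn), Finset.card_smul_finset]
    · rw [if_neg h1, if_neg (fun h2 => h1 ((Cond.smul_iff hω h hU x g).mp h2))]

theorem term_smulB {ω : P → ℤ} (hω : Function.Injective ω) (h : Act G ω)
    (hB : ∀ U, Up U → ∀ (M : Finset P) (g : G), B (g • U) (g • M) = B U M)
    (l : List ℕ) (c : ℕ)
    {U M : Finset P} (hU : Up U) (hUi : ∀ g : G, g • U = U) (hMi : ∀ g : G, g • M = M) (g : G)
    (x : Finset P × Finset P × Finset P)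
    [Decidable (Cond (fun a b : P => a < b) ω c U M (g • x))]
    [Decidable (Cond (fun a b : P => a < b) ω c U M x)] :
    (if Cond (fun a b : P => a < b) ω c U M (g • x) then
      (-1) ^ (g • x).2.2.card *
        WB (fun a b : P => a < b) ω B l (U \ (g • x).1) (g • x).2.1 else 0) =
    (if Cond (fun a b : P => a < b) ω c U M x then
      (-1) ^ x.2.2.card * WB (fun a b : P => a < b) ω B l (U \ x.1) x.2.1 else (0 : ℤ)) := by
  have h1 := Cond.smul_iff (c := c) (M := M) hω h hU x g
  rw [hUi, hMi] at h1
  by_cases h2 : Cond (fun a b : P => a < b) ω c U M x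
  · rw [if_pos h2, if_pos (h1.mpr h2)]
    obtain ⟨I, M', J⟩ := x
    change (-1) ^ (g • J).card * WB _ ω B l (U \ g • I) (g • M') = _
    have h3 : U \ g • I = g • (U \ I) := by rw [Finset.smul_finset_sdiff, hUi]
    rw [h3, WB_smul hω h hB l (hU.sdiff h2.1.dn), Finset.card_smul_finset]
  · rw [if_neg h2, if_neg (fun h3 => h2 (h1.mp h3))]

theorem sub_of_not_dvd {ω : P → ℤ} (hω : Function.Injective ω) (h : Act G ω)
    (hG : IsPGroup p G)
    (hB : ∀ U, Up U → ∀ (M : Finset P) (g : G), B (g • U) (g • M) = B U M) {F : Finset P}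
    (hV : ∀ U M : Finset P, (∀ g : G, g • M = M) → ¬ (p : ℤ) ∣ B U M → F ⊆ M) (l : List ℕ)
    {U : Finset P} (hU : Up U) (hUi : ∀ g : G, g • U = U) {M : Finset P}
    (hMi : ∀ g : G, g • M = M) (hW : ¬ (p : ℤ) ∣ WB (fun a b : P => a < b) ω B l U M) :
    F ⊆ M := by
  classical
  induction l generalizing U M with
  | nil =>
    rw [WB] at hW
    exact hV U M hMi hW
  | cons c l ih =>
    by_contra hcon
    apply hW
    rw [WB]
    apply dvd_sum_of_fixed hG _ (fun g x => term_smulB hω h hB l c hU hUi hMi g x)
    intro x hx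
    by_cases h1 : Cond (fun a b : P => a < b) ω c U M x
    · rw [if_pos h1]
      apply Dvd.dvd.mul_left
      by_contra h2
      apply hcon
      have h3 : F ⊆ x.2.1 := by
        refine ih (hU.sdiff h1.1.dn) (fun g => ?_) (fun g => ?_) h2
        · rw [Finset.smul_finset_sdiff, hUi]
          have := congrArg Prod.fst (hx g)
          rw [Prod.smul_fst] at this
          rw [this]
        · exact congrArg (fun y => y.2.1) (hx g)
      rw [← h1.2.2.2.2]
      exact fun y hy => Finset.mem_union_left _ (Finset.mem_union_right _ (h3 hy))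
    · rw [if_neg h1]
      exact dvd_zero _

theorem PeelF.exists_word {ω : P → ℤ} (hω : Function.Injective ω) (h : Act G ω)
    (hG : IsPGroup p G)
    (hB : ∀ U, Up U → ∀ (M : Finset P) (g : G), B (g • U) (g • M) = B U M) {F : Finset P}
    (hFi : ∀ g : G, g • F = F)
    (hV : ∀ U M : Finset P, (∀ g : G, g • M = M) → ¬ (p : ℤ) ∣ B U M → F ⊆ M)
    (hF : ∀ U : Finset P, Dn (fun a b : P => a < b) U F → ¬ (p : ℤ) ∣ B U F)
    {M : Finset P} (hM : PeelF G (fun a b : P => a < b) ω F M) :
    ∃ l : List ℕ, ∀ U : Finset P, Up U → (∀ g : G, g • U = U) →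
      Dn (fun a b : P => a < b) U M → ¬ (p : ℤ) ∣ WB (fun a b : P => a < b) ω B l U M := by
  classical
  induction hM with
  | base => exact ⟨[], fun U _ _ hD => hF U hD⟩
  | step M I J h1 h2 h3 ih =>
    obtain ⟨l, hl⟩ := ih
    refine ⟨(I.card + J.card) :: l, fun U hU hUi hD => ?_⟩
    have hMi : ∀ g : G, g • M = M := (PeelF.step M I J h1 h2 h3).inv hFi
    rw [WB]
    have hC : Cond (fun a b : P => a < b) ω (I.card + J.card) U M (I, M \ (I ∪ J), J) := by
      refine ⟨⟨h1.low.1.trans hD.1, fun a ha b hb hab => ?_⟩, ⟨?_, fun a ha b hb hab => ?_⟩,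
        ⟨?_, fun a ha b hb hab => ?_⟩, rfl, ?_⟩
      · exact h1.low.2 a (hD.2 a ha b (h1.low.1 hb) hab) b hb hab
      · intro x hx
        rw [Finset.mem_sdiff, Finset.mem_union] at hx
        change x ∈ U \ I
        rw [Finset.mem_sdiff]
        exact ⟨hD.1 hx.1, fun hh => hx.2 (Or.inl hh)⟩
      · change a ∈ M \ (I ∪ J)
        change a ∈ U \ I at ha
        change b ∈ M \ (I ∪ J) at hb
        rw [Finset.mem_sdiff] at ha
        rw [Finset.mem_sdiff, Finset.mem_union] at hb ⊢
        have haM := hD.2 a ha.1 b hb.1 hab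
        refine ⟨haM, ?_⟩
        rintro (hh | hh)
        · exact ha.2 hh
        · exact hb.2 (Or.inr (h1.high.2 b hb.1 a hh hab).1)
      · intro x hx
        change x ∈ (U \ I) \ (M \ (I ∪ J))
        change x ∈ J at hx
        simp only [Finset.mem_sdiff, Finset.mem_union]
        exact ⟨⟨hD.1 (h1.high.1 hx), fun hh => Finset.disjoint_left.mp h1.disj hh hx⟩,
          fun hh => hh.2 (Or.inr hx)⟩
      · change a ∈ (U \ I) \ (M \ (I ∪ J)) at ha
        change b ∈ J at hb
        simp only [Finset.mem_sdiff, Finset.mem_union] at ha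
        have haM := hD.2 a ha.1.1 b (h1.high.1 hb) hab
        have haJ : a ∈ J := by
          by_contra hh
          exact ha.2 ⟨haM, fun hh' => hh'.elim ha.1.2 hh⟩
        refine ⟨haJ, ?_⟩
        have h4 := (h1.high.2 b (h1.high.1 hb) a haJ hab).2
        simp only [Pi.neg_apply]
        omega
      · change I ∪ (M \ (I ∪ J)) ∪ J = M
        ext x
        simp only [Finset.mem_union, Finset.mem_sdiff]
        constructor
        · rintro ((hx | hx) | hx)
          · exact h1.low.1 hx
          · exact hx.1
          · exact h1.high.1 hx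
        · intro hx
          by_cases hxI : x ∈ I
          · exact Or.inl (Or.inl hxI)
          · by_cases hxJ : x ∈ J
            · exact Or.inr hxJ
            · exact Or.inl (Or.inr ⟨hx, fun hh => hh.elim hxI hxJ⟩)
    apply not_dvd_sum_of_fixed hG _
      (fun g x => term_smulB hω h hB l (I.card + J.card) hU hUi hMi g x) (I, M \ (I ∪ J), J)
    · intro g
      rw [Prod.smul_mk, Prod.smul_mk, Finset.smul_finset_sdiff, Finset.smul_finset_union, hMi,
        h1.invI, h1.invJ]
    · rw [if_pos hC, (isUnit_one.neg.pow _).dvd_mul_left]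
      apply hl (U \ I) (hU.sdiff hC.1.dn)
      · intro g
        rw [Finset.smul_finset_sdiff, hUi, h1.invI]
      · exact hC.2.1
    · intro x hx hfix
      by_cases h4 : Cond (fun a b : P => a < b) ω (I.card + J.card) U M x
      · rw [if_pos h4]
        apply Dvd.dvd.mul_left
        by_contra h5
        apply hx
        obtain ⟨I', M', J'⟩ := x
        have hI' : ∀ g : G, g • I' = I' := fun g => congrArg Prod.fst (hfix g)
        have hM' : ∀ g : G, g • M' = M' := fun g => congrArg (fun y => y.2.1) (hfix g)
        have hJ' : ∀ g : G, g • J' = J' := fun g => congrArg (fun y => y.2.2) (hfix g)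
        have h6 : F ⊆ M' := by
          refine sub_of_not_dvd hω h hG hB hV l (hU.sdiff h4.1.dn) (fun g => ?_) hM' h5
          rw [Finset.smul_finset_sdiff, hUi]
          change U \ g • I' = U \ I'
          rw [hI']
        obtain ⟨c1, c2, c3, c4, c5⟩ := h4
        dsimp only at c1 c2 c3 c4 c5
        have hIM : I' ⊆ M := by
          rw [← c5]
          exact fun x hx => Finset.mem_union_left _ (Finset.mem_union_left _ hx)
        have hJM : J' ⊆ M := by
          rw [← c5]
          exact fun x hx => Finset.mem_union_right _ hx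
        have hMI : ∀ x ∈ M', x ∉ I' := fun x hx => (Finset.mem_sdiff.mp (c2.1 hx)).2
        have hJI : ∀ x ∈ J', x ∉ I' ∧ x ∉ M' := by
          intro x hx
          have := c3.1 hx
          rw [Finset.mem_sdiff, Finset.mem_sdiff] at this
          exact ⟨this.1.2, this.2⟩
        have h7 : PrF G (fun a b : P => a < b) ω F M I' J' := by
          refine ⟨⟨hIM, fun a ha b hb hab => c1.2 a (hD.1 ha) b hb hab⟩,
            ⟨hJM, fun a ha b hb hab => ?_⟩, ?_, ?_, ?_, hI', hJ'⟩
          · -- `b < a`, `b ∈ J'`, `a ∈ M`
            have hbU : b ∈ U := hD.1 (hJM hb)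
            have haI : a ∉ I' := fun hh => (hJI b hb).1 (c1.2 b hbU a hh hab).1
            have haM : a ∉ M' := fun hh =>
              (hJI b hb).2 (c2.2 b (Finset.mem_sdiff.mpr ⟨hbU, (hJI b hb).1⟩) a hh hab)
            have haJ : a ∈ J' := by
              rw [← c5] at ha
              simp only [Finset.mem_union] at ha
              rcases ha with (ha | ha) | ha
              · exact absurd ha haI
              · exact absurd ha haM
              · exact ha
            refine ⟨haJ, ?_⟩
            have h8 := (c3.2 b (by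
              rw [Finset.mem_sdiff, Finset.mem_sdiff]
              exact ⟨⟨hbU, (hJI b hb).1⟩, (hJI b hb).2⟩) a haJ hab).2
            simp only [Pi.neg_apply] at h8
            omega
          · rw [Finset.disjoint_left]
            exact fun x hx hx' => (hJI x hx').1 hx
          · rw [Finset.disjoint_left]
            exact fun x hx hx' => hMI x (h6 hx) hx'
          · rw [Finset.disjoint_left]
            exact fun x hx hx' => (hJI x hx').2 (h6 hx)
        have h8 := h2 I' J' h7 c4
        obtain ⟨rfl, rfl⟩ := h8
        have h9 : M' = M \ (I' ∪ J') := by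
          ext x
          rw [Finset.mem_sdiff, Finset.mem_union]
          constructor
          · intro hx
            refine ⟨?_, ?_⟩
            · rw [← c5]
              exact Finset.mem_union_left _ (Finset.mem_union_right _ hx)
            · rintro (hh | hh)
              · exact hMI x hx hh
              · exact (hJI x hh).2 hx
          · rintro ⟨hx, hx'⟩
            rw [← c5] at hx
            simp only [Finset.mem_union] at hx
            rcases hx with (hx | hx) | hx
            · exact absurd (Or.inl hx) hx'
            · exact hx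
            · exact absurd (Or.inr hx) hx'
        rw [h9]
      · rw [if_neg h4]
        exact dvd_zero _

end

end Pool.Agent.Lib.MP_5bc52d_co
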