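import Mathlib
import Pool.Agent.Lib.MP_5bc52d_co.Grp.Peel
import Pool.Agent.Lib.MP_5bc52d_co.Sym.Cases

/-!
# Two situations in which everything outside a convex set can be peeled off
-/

open Finset
open scoped Pointwise

set_option linter.unusedSectionVars false

namespace Pool.Agent.Lib.MP_5bc52d_co

variable {P : Type*} [Fintype P] [DecidableEq P] {G : Type*} [Group G] [MulAction G P]

section
variable {r : P → P → Prop} {ω : P → ℤ} {F : Finset P}

/-- the largest invariant increasing initial part disjoint from `F` -/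
theorem exists_lowF (r : P → P → Prop) (ω : P → ℤ) (F M : Finset P) :
    ∃ A : Finset P, Wk r ω M A ∧ Disjoint F A ∧ (∀ g : G, g • A = A) ∧
      ∀ I : Finset P, Wk r ω M I → Disjoint F I → (∀ g : G, g • I = I) → I ⊆ A := by
  classical
  refine ⟨M.filter (fun b => ∃ I : Finset P, Wk r ω M I ∧ Disjoint F I ∧
    (∀ g : G, g • I = I) ∧ b ∈ I),
    ⟨Finset.filter_subset _ _, fun a ha b hb hab => ?_⟩, ?_, ?_, fun I h1 h2 h3 b hb => ?_⟩
  · rw [Finset.mem_filter] at hb ⊢
    obtain ⟨I, h1, h2, h3, h4⟩ := hb.2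
    have h5 := h1.2 a ha b h4 hab
    exact ⟨⟨ha, I, h1, h2, h3, h5.1⟩, h5.2⟩
  · rw [Finset.disjoint_left]
    intro x hx h
    rw [Finset.mem_filter] at h
    obtain ⟨I, h1, h2, h3, h4⟩ := h.2
    exact Finset.disjoint_left.mp h2 hx h4
  · apply inv_of_smul_mem
    intro g x hx
    rw [Finset.mem_filter] at hx ⊢
    obtain ⟨I, h1, h2, h3, h4⟩ := hx.2
    have h5 := smul_mem_of_inv h3 g h4
    exact ⟨h1.1 h5, I, h1, h2, h3, h5⟩
  · rw [Finset.mem_filter]
    exact ⟨h1.1 hb, I, h1, h2, h3, hb⟩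

theorem low_nonemptyF (ht : ∀ x y z, r x y → r y z → r x z) (hi : ∀ x, ¬ r x x)
    (hr : ∀ (g : G) (a b : P), r a b → r (g • a) (g • b)) (hFi : ∀ g : G, g • F = F)
    (hcv : Cvx r F) {M : Finset P} (hM : ∀ g : G, g • M = M) {b : P} (hb : b ∈ M)
    (hbF : b ∉ F) (hbv : ∃ f ∈ F, r b f)
    {A : Finset P}
    (hA : ∀ I : Finset P, Wk r ω M I → Disjoint F I → (∀ g : G, g • I = I) → I ⊆ A) :
    A.Nonempty := by
  classical
  obtain ⟨m, ⟨hmM, hmF, f, hf, hmf⟩, hmin⟩ := (wf ht hi).has_min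
    {x | x ∈ M ∧ x ∉ F ∧ ∃ f ∈ F, r x f} ⟨b, hb, hbF, hbv⟩
  refine ⟨m, hA (M.filter (fun x => x ∉ F ∧ ∀ y ∈ M, ¬ r y x))
    ⟨Finset.filter_subset _ _, fun a ha b hb hab => ?_⟩ ?_ ?_ ?_⟩
  · rw [Finset.mem_filter] at hb
    exact absurd hab (hb.2.2 a ha)
  · rw [Finset.disjoint_left]
    intro x hx h
    rw [Finset.mem_filter] at h
    exact h.2.1 hx
  · apply inv_of_smul_mem
    intro g x hx
    rw [Finset.mem_filter] at hx ⊢
    refine ⟨smul_mem_of_inv hM g hx.1, fun h => hx.2.1 ?_, fun y hy hyx => ?_⟩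
    · have := smul_mem_of_inv hFi g⁻¹ h
      rwa [inv_smul_smul] at this
    · have h1 := hr g⁻¹ _ _ hyx
      rw [inv_smul_smul] at h1
      exact hx.2.2 _ (smul_mem_of_inv hM g⁻¹ hy) h1
  · rw [Finset.mem_filter]
    refine ⟨hmM, hmF, fun y hy hym => ?_⟩
    by_cases hyF : y ∈ F
    · exact hmF (hcv y hyF f hf m hym hmf)
    · exact hmin y ⟨hy, hyF, f, hf, ht _ _ _ hym hmf⟩ hym

/-- every element is comparable with an element of `F` -/
theorem peelF_of_comparable (ht : ∀ x y z, r x y → r y z → r x z) (hi : ∀ x, ¬ r x x)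
    (hr : ∀ (g : G) (a b : P), r a b → r (g • a) (g • b)) (hFi : ∀ g : G, g • F = F)
    (hcv : Cvx r F) (hc : ∀ x, x ∉ F → ∃ f ∈ F, r x f ∨ r f x) (n : ℕ) {M : Finset P}
    (hn : M.card ≤ n) (hM : ∀ g : G, g • M = M) (hFM : F ⊆ M) : PeelF G r ω F M := by
  induction n generalizing M with
  | zero =>
    have h1 : M = ∅ := Finset.card_eq_zero.mp (by omega)
    have h2 : F = M := by
      rw [h1] at hFM ⊢
      exact Finset.subset_empty.mp hFM
    rw [← h2]
    exact PeelF.base
  | succ n ih =>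
    by_cases hM1 : F = M
    · rw [← hM1]
      exact PeelF.base
    obtain ⟨A, a1, a2, a3, a4⟩ := exists_lowF (G := G) r ω F M
    obtain ⟨B, b1, b2, b3, b4⟩ := exists_lowF (G := G) (fun a b => r b a) ω F M
    have hdis : Disjoint A B := by
      rw [Finset.disjoint_left]
      intro x hxA hxB
      have hxF : x ∉ F := fun h => Finset.disjoint_left.mp a2 h hxA
      obtain ⟨f, hf, h | h⟩ := hc x hxF
      · exact Finset.disjoint_left.mp b2 hf (b1.2 f (hFM hf) x hxB h).1
      · exact Finset.disjoint_left.mp a2 hf (a1.2 f (hFM hf) x hxA h).1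
    have hne : (A ∪ B).Nonempty := by
      have h1 : ∃ b ∈ M, b ∉ F := by
        by_contra hcon
        push Not at hcon
        exact hM1 (Finset.Subset.antisymm hFM hcon)
      obtain ⟨b, hb, hbF⟩ := h1
      obtain ⟨f, hf, h | h⟩ := hc b hbF
      · exact (low_nonemptyF (ω := ω) ht hi hr hFi hcv hM hb hbF ⟨f, hf, h⟩ a4).mono
          Finset.subset_union_left
      · exact (low_nonemptyF (ω := ω) (r := fun a b => r b a)
          (fun x y z h1 h2 => ht z y x h2 h1) hi
          (fun g a b h1 => hr g b a h1) hFi (fun a ha b hb x h1 h2 => hcv b hb a ha x h2 h1)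
          hM hb hbF ⟨f, hf, h⟩ b4).mono Finset.subset_union_right
    have hsub : A ∪ B ⊆ M := Finset.union_subset a1.1 b1.1
    refine PeelF.step M A B ⟨a1, b1, hdis, a2, b2, a3, b3⟩ (fun I' J' h1 h2 => ?_)
      (ih ?_ ?_ ?_)
    · have h3 := a4 I' h1.low h1.dI h1.invI
      have h4 := b4 J' h1.high h1.dJ h1.invJ
      have h5 := Finset.card_le_card h3
      have h6 := Finset.card_le_card h4
      exact ⟨Finset.eq_of_subset_of_card_le h3 (by omega),
        Finset.eq_of_subset_of_card_le h4 (by omega)⟩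
    · have h1 := Finset.card_sdiff_add_card_eq_card hsub
      have h2 := Finset.card_pos.mpr hne
      omega
    · intro g
      rw [Finset.smul_finset_sdiff, Finset.smul_finset_union, hM, a3, b3]
    · intro x hx
      rw [Finset.mem_sdiff, Finset.mem_union]
      exact ⟨hFM hx, fun h => h.elim (Finset.disjoint_left.mp a2 hx)
        (Finset.disjoint_left.mp b2 hx)⟩

end

section
variable {p : ℕ} [hp : Fact p.Prime]

/-- an invariant set with as many elements as an orbit is that orbit -/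
theorem eq_orb_of_cardF (hG : IsPGroup p G) {F : Finset P}
    (hd : ∀ x y : P, x ∉ F → y ∉ F → (orb G x).card = (orb G y).card → y ∈ orb G x)
    {S : Finset P} (hS : ∀ g : G, g • S = S) (hSF : Disjoint F S) {x : P} (hxF : x ∉ F)
    (hc : S.card = (orb G x).card) :
    S = orb G x := by
  classical
  have hSF' : ∀ y ∈ S, y ∉ F := fun y hy hyF => Finset.disjoint_left.mp hSF hyF hy
  by_cases hx : x ∈ S
  · symm
    exact Finset.eq_of_subset_of_card_le (orb_subset hS hx) hc.le
  exfalso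
  have hpow : ∀ y : P, ∃ n : ℕ, (orb G y).card = p ^ n := by
    intro y
    rw [← card_orb_eq]
    exact hG.card_orbit y
  choose e he using hpow
  have hp2 : 2 ≤ p := hp.out.two_le
  have h1 : ∀ y ∈ S, e y < e x := by
    intro y hy
    have h2 : (orb G y).card ≤ (orb G x).card := by
      rw [← hc]
      exact Finset.card_le_card (orb_subset hS hy)
    have h3 : (orb G y).card ≠ (orb G x).card := fun h4 =>
      hx (orb_subset hS hy (hd y x (hSF' y hy) hxF h4))
    rw [he, he] at h2 h3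
    have h5 : p ^ e y < p ^ e x := lt_of_le_of_ne h2 h3
    exact (Nat.pow_lt_pow_iff_right (by omega)).mp h5
  have h2 : S.card = ∑ j ∈ S.image e, p ^ j := by
    rw [Finset.card_eq_sum_card_image e S]
    apply Finset.sum_congr rfl
    intro j hj
    rw [Finset.mem_image] at hj
    obtain ⟨y, hy, hyj⟩ := hj
    rw [← hyj, ← he y]
    congr 1
    ext z
    rw [Finset.mem_filter]
    constructor
    · rintro ⟨hzS, hz⟩
      apply hd _ _ (hSF' y hy) (hSF' z hzS)
      rw [he, he, hz]
    · intro hz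
      refine ⟨orb_subset hS hy hz, ?_⟩
      have h3 : (orb G z).card = (orb G y).card := by
        apply congrArg
        apply Finset.Subset.antisymm
        · exact orb_subset (orb_inv y) hz
        · exact orb_subset (orb_inv z) (orb_symm hz)
      rw [he, he] at h3
      exact Nat.pow_right_injective hp2 h3
  have h3 : ∑ j ∈ S.image e, p ^ j < p ^ e x := by
    apply Nat.geomSum_lt hp2
    intro j hj
    rw [Finset.mem_image] at hj
    obtain ⟨y, hy, rfl⟩ := hj
    exact h1 y hy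
  rw [hc, he] at h2
  omega

variable {r : P → P → Prop} {ω : P → ℤ} {F : Finset P}

/-- adding an orbit below -/
theorem PeelF.add (hG : IsPGroup p G)
    (hd : ∀ x y : P, x ∉ F → y ∉ F → (orb G x).card = (orb G y).card → y ∈ orb G x)
    (ht : ∀ x y z, r x y → r y z → r x z) (hi : ∀ x, ¬ r x x)
    (hr : ∀ (g : G) (a b : P), r a b → r (g • a) (g • b)) (hFi : ∀ g : G, g • F = F)
    {C : Finset P} (hC : PeelF G r ω F C) {x : P} (hx : x ∉ C)
    (h1 : ∀ c ∈ C, ∀ y ∈ orb G x, ¬ r c y) (h2 : ∃ c ∈ C, ∃ y ∈ orb G x, r y c) :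
    PeelF G r ω F (C ∪ orb G x) := by
  have hCi : ∀ g : G, g • C = C := hC.inv hFi
  have hdis : Disjoint C (orb G x) := by
    rw [Finset.disjoint_left]
    intro y hyC hy
    exact hx (orb_subset hCi hyC (orb_symm hy))
  have hFO : Disjoint F (orb G x) := Disjoint.mono_left hC.sub hdis
  have hxF : x ∉ F := fun h => hx (hC.sub h)
  refine PeelF.step _ (orb G x) ∅ ⟨⟨Finset.subset_union_right, fun a ha b hb hab => ?_⟩,
    ⟨Finset.empty_subset _, fun a _ b hb => by simp at hb⟩, Finset.disjoint_empty_right _,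
    hFO, Finset.disjoint_empty_right _, orb_inv x, by simp⟩ (fun I' J' h3 h4 => ?_) ?_
  · exfalso
    rw [Finset.mem_union] at ha
    rcases ha with ha | ha
    · exact h1 a ha b hb hab
    · exact orb_antichain ht hi hr ha hb hab
  · have h5 : I' ∪ J' = orb G x := by
      apply eq_orb_of_cardF hG hd _ _ hxF
      · rw [Finset.card_union_of_disjoint h3.disj, h4, Finset.card_empty, add_zero]
      · intro g
        rw [Finset.smul_finset_union, h3.invI, h3.invJ]
      · exact Finset.disjoint_union_right.mpr ⟨h3.dI, h3.dJ⟩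
    have h6 : J' = ∅ := by
      by_contra h7
      obtain ⟨z, hz⟩ := Finset.nonempty_iff_ne_empty.mpr h7
      have h8 : z ∈ orb G x := by
        rw [← h5]
        exact Finset.mem_union_right _ hz
      obtain ⟨c, hc, y, hy, hyc⟩ := h2
      have h9 : y ∈ J' := by
        apply orb_subset h3.invJ hz
        exact orb_subset (orb_inv z) (orb_symm h8) hy
      have h10 := (h3.high.2 c (Finset.mem_union_left _ hc) y h9 hyc).1
      have h11 : c ∈ orb G x := by
        rw [← h5]
        exact Finset.mem_union_right _ h10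
      exact Finset.disjoint_left.mp hdis hc h11
    rw [h6, Finset.union_empty] at h5
    exact ⟨h5, h6⟩
  · rw [Finset.union_empty, Finset.union_sdiff_right, Finset.sdiff_eq_self_of_disjoint hdis]
    exact hC

theorem PeelF.extend (hG : IsPGroup p G)
    (hd : ∀ x y : P, x ∉ F → y ∉ F → (orb G x).card = (orb G y).card → y ∈ orb G x)
    (ht : ∀ x y z, r x y → r y z → r x z) (hi : ∀ x, ¬ r x x)
    (hr : ∀ (g : G) (a b : P), r a b → r (g • a) (g • b)) (hFi : ∀ g : G, g • F = F)
    {C : Finset P} (hC : PeelF G r ω F C) (hx : Cvx r C) {a b : P} (ha : a ∉ C) (hb : b ∈ C)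
    (hab : r a b) : ∃ C' : Finset P, PeelF G r ω F C' ∧ Cvx r C' ∧ C.card < C'.card := by
  have hCi : ∀ g : G, g • C = C := hC.inv hFi
  obtain ⟨x, ⟨hxC, b', hb', hxb⟩, hmax⟩ :=
    (wf (r := fun a b => r b a) (fun x y z h1 h2 => ht z y x h2 h1) hi).has_min
      {a | a ∉ C ∧ ∃ b ∈ C, r a b} ⟨a, ha, b, hb, hab⟩
  have hO1 : ∀ y ∈ orb G x, y ∉ C ∧ ∃ b ∈ C, r y b := by
    intro y hy
    have h1 := hy
    rw [mem_orb, MulAction.mem_orbit_iff] at h1
    obtain ⟨g, hg⟩ := h1
    refine ⟨fun h => hxC (orb_subset hCi h (orb_symm hy)), g • b', smul_mem_of_inv hCi g hb', ?_⟩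
    rw [← hg]
    exact hr g _ _ hxb
  have hO2 : ∀ y ∈ orb G x, ∀ z, r y z → z ∉ C → ¬ ∃ b ∈ C, r z b := by
    intro y hy z hyz hzC hzb
    obtain ⟨c, hc, hzc⟩ := hzb
    rw [mem_orb, MulAction.mem_orbit_iff] at hy
    obtain ⟨g, hg⟩ := hy
    have h1 := hr g⁻¹ _ _ hyz
    rw [← hg, inv_smul_smul] at h1
    refine hmax (g⁻¹ • z) ⟨fun h => hzC ?_, g⁻¹ • c, smul_mem_of_inv hCi _ hc, hr _ _ _ hzc⟩ h1
    have := smul_mem_of_inv hCi g h
    rwa [smul_inv_smul] at this
  have h1 : ∀ c ∈ C, ∀ y ∈ orb G x, ¬ r c y := by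
    intro c hc y hy hcy
    obtain ⟨h2, c', hc', h3⟩ := hO1 y hy
    exact h2 (hx c hc c' hc' y hcy h3)
  refine ⟨C ∪ orb G x, hC.add hG hd ht hi hr hFi hxC h1 ⟨b', hb', x, self_mem_orb x, hxb⟩,
    fun a ha b hb z haz hzb => ?_, ?_⟩
  · rw [Finset.mem_union] at ha hb ⊢
    rcases ha with ha | ha
    · rcases hb with hb | hb
      · exact Or.inl (hx a ha b hb z haz hzb)
      · exact absurd (ht _ _ _ haz hzb) (h1 a ha b hb)
    · rcases hb with hb | hb
      · left
        by_contra hz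
        exact hO2 a ha z haz hz ⟨b, hb, hzb⟩
      · exact absurd (ht _ _ _ haz hzb) (orb_antichain ht hi hr ha hb)
  · apply Finset.card_lt_card
    rw [Finset.ssubset_iff_of_subset Finset.subset_union_left]
    exact ⟨x, Finset.mem_union_right _ (self_mem_orb x), hxC⟩

theorem peelF_of_distinct (hG : IsPGroup p G)
    (hd : ∀ x y : P, x ∉ F → y ∉ F → (orb G x).card = (orb G y).card → y ∈ orb G x)
    (ht : ∀ x y z, r x y → r y z → r x z) (hi : ∀ x, ¬ r x x)
    (hr : ∀ (g : G) (a b : P), r a b → r (g • a) (g • b)) (hFi : ∀ g : G, g • F = F)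
    (hcv : Cvx r F)
    (hconn : ∀ C : Finset P, F ⊆ C → (∀ a b, r a b → (a ∈ C ↔ b ∈ C)) → C = univ) :
    PeelF G r ω F univ := by
  classical
  have hne : ((univ : Finset (Finset P)).filter
      (fun C => PeelF G r ω F C ∧ Cvx r C)).Nonempty := by
    refine ⟨F, ?_⟩
    rw [Finset.mem_filter]
    exact ⟨Finset.mem_univ _, PeelF.base, hcv⟩
  obtain ⟨C, hC, hmax⟩ := Finset.exists_max_image _ Finset.card hne
  rw [Finset.mem_filter] at hC
  have hmax' : ∀ C' : Finset P, PeelF G r ω F C' → Cvx r C' → ¬ C.card < C'.card := by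
    intro C' h1 h2
    have := hmax C' (Finset.mem_filter.mpr ⟨Finset.mem_univ _, h1, h2⟩)
    omega
  have h1 : C = univ := by
    apply hconn C hC.2.1.sub
    intro a b hab
    constructor
    · intro ha
      by_contra hb
      have hsw : Cvx (fun a b => r b a) C := fun a ha b hb x hax hxb => hC.2.2 b hb a ha x hxb hax
      obtain ⟨C', h2, h3, h4⟩ := hC.2.1.swap.extend (r := fun a b => r b a) hG hd
        (fun x y z h1 h2 => ht z y x h2 h1) hi (fun g a b h1 => hr g b a h1) hFi hsw hb ha hab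
      exact hmax' C' h2.swap (fun a ha b hb x hax hxb => h3 b hb a ha x hxb hax) h4
    · intro hb
      by_contra ha
      obtain ⟨C', h2, h3, h4⟩ := hC.2.1.extend hG hd ht hi hr hFi hC.2.2 ha hb hab
      exact hmax' C' h2 h3 h4
  rw [← h1]
  exact hC.2.1

end

end Pool.Agent.Lib.MP_5bc52d_co
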