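import Mathlib
import Pool.Agent.Lib.MP_5bc52d_co.Lin.Final
import Pool.Agent.Lib.MP_5bc52d_co.Grp.Cases

/-!
# Linear extensions of the set of fixed points
-/

open Finset Polynomial
open scoped Pointwise

set_option linter.unusedSectionVars false

namespace Pool.Agent.Lib.MP_5bc52d_co

open Splitting

section
variable {Q : Subring R}

/-- elements with integer coefficients -/
noncomputable def intR (Q : Subring R) : Subring Q :=
  (MvPowerSeries.map (σ := ℕ) (Int.castRingHom ℚ)).range.comap Q.subtype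

theorem mem_intR {f : Q} : f ∈ intR Q ↔ f ∈ intQ Q := by
  constructor
  · rintro ⟨Z, hZ⟩ m
    refine ⟨MvPowerSeries.coeff m Z, ?_⟩
    have h1 := congrArg (MvPowerSeries.coeff m) hZ
    rw [MvPowerSeries.coeff_map] at h1
    exact h1.symm
  · intro hf
    choose z hz using hf
    refine ⟨fun m => z m, ?_⟩
    ext m
    rw [MvPowerSeries.coeff_map]
    exact (hz m).symm

variable (hQ : ∀ F : R, F ∈ Q ↔ IsQS F)
variable {P : Type*} [Fintype P] [DecidableEq P] [PartialOrder P]

theorem irreducible_of_wordB (ω : P → ℕ) (hω : Function.Injective ω) [Nonempty P] {p : ℕ}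
    (hp : p.Prime) (k : ℕ) (l : List ℕ)
    (hW : ¬ (p : ℤ) ∣ WB (fun a b : P => a < b) (fun x => (ω x : ℤ)) (LL ω (p ^ k)) l univ univ) :
    Irreducible (GamQ hQ ω (univ : Finset P)) := by
  classical
  by_contra hcon
  obtain ⟨A, B, a, b, -, -, -, hA, hB, -, -, hA0, hB0, hAB⟩ := exists_factor hQ ω hω hcon
  have hω' : Function.Injective (fun p => (ω p : ℤ)) := fun a b h => hω (by simpa using h)
  have hT : ∀ k, ∀ f ∈ intR Q, (bottom hQ).qp k f ∈ intR Q := by
    intro k f hf
    rw [mem_intR] at hf ⊢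
    exact qp_intQ hQ k f hf
  have hD := (bottom hQ).isDerM_iter hp k (intR Q) hT
  have hl := (bottom hQ).isDerM_twB hT hD l
  obtain ⟨h, hh, hmul⟩ := hl.mul A (mem_intR.mpr hA) B (mem_intR.mpr hB)
  have hrep := twB_Gamma (bottom hQ) (GamQ hQ ω) (r := fun a b : P => a < b)
    (B := LL ω (p ^ k)) (fun x => lt_irrefl x) hω'
    (fun U k => bottom_rec hQ ω hω U k)
    (fun U M hne => by
      rw [LL] at hne
      split_ifs at hne with h1
      · exact h1
      · exact absurd rfl hne)
    hT hD
    (fun U => iter_Gamma (bottom hQ) (GamQ hQ ω) ω hω (bottom_rec hQ ω hω) (p ^ k) U) l univ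
  have hc : ∀ f g : Q, MvPowerSeries.coeff 0 ((f * g : Q) : R) =
      MvPowerSeries.coeff 0 (f : R) * MvPowerSeries.coeff 0 (g : R) := by
    intro f g
    change MvPowerSeries.coeff 0 ((f : R) * (g : R)) = _
    rw [MvPowerSeries.coeff_zero_eq_constantCoeff_apply, map_mul]
    rfl
  have h1 : MvPowerSeries.coeff 0 (((bottom hQ).twB ((bottom hQ).qp 1)^[p ^ k] l
      (GamQ hQ ω (univ : Finset P)) : Q) : R) =
      ((WB (fun a b : P => a < b) (fun x => (ω x : ℤ)) (LL ω (p ^ k)) l univ univ : ℤ) : ℚ) := by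
    rw [hrep, AddSubmonoidClass.coe_finsetSum, map_sum, Finset.sum_eq_single univ]
    · rw [sdiff_self, hc]
      change MvPowerSeries.coeff 0 ((_ : ℤ) : R) * MvPowerSeries.coeff 0 (Gam ω ∅) = _
      rw [coeff_zero_Gam, if_pos rfl, mul_one, MvPowerSeries.coeff_zero_eq_constantCoeff_apply,
        map_intCast]
    · intro M _ hM
      rw [hc]
      change _ * MvPowerSeries.coeff 0 (Gam ω (univ \ M)) = 0
      rw [coeff_zero_Gam, if_neg, mul_zero]
      intro h3
      apply hM
      rw [Finset.sdiff_eq_empty_iff_subset] at h3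
      exact Finset.univ_subset_iff.mp h3
    · intro h3
      exact absurd (Finset.mem_univ _) h3
  rw [hAB, hmul] at h1
  change MvPowerSeries.coeff 0 (((A * _ : Q) : R) + ((B * _ : Q) : R) + (((p : Q) * h : Q) : R)) =
    _ at h1
  rw [map_add, map_add, hc, hc, hc, hA0, hB0, zero_mul, zero_mul, zero_add, zero_add] at h1
  rw [mem_intR] at hh
  obtain ⟨z, hz⟩ := hh 0
  rw [hz] at h1
  have h2 : MvPowerSeries.coeff 0 (((p : Q) : Q) : R) = (p : ℚ) := by
    change MvPowerSeries.coeff 0 ((p : ℕ) : R) = _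
    rw [MvPowerSeries.coeff_zero_eq_constantCoeff_apply, map_natCast]
  rw [h2] at h1
  apply hW
  refine ⟨z, ?_⟩
  exact_mod_cast h1.symm

end

section
variable {P : Type*} [Fintype P] [DecidableEq P] [PartialOrder P]
variable {G : Type*} [Group G] [MulAction G P] {p : ℕ} [hp : Fact p.Prime]

theorem lext_smul (hr : ∀ (g : G) (a b : P), a < b → g • a < g • b) (M : Finset P) (g : G) :
    lext (g • M) = lext M := by
  have hc : (g • M).card = M.card := Finset.card_smul_finset g M
  set e : {x // x ∈ M} ≃ {x // x ∈ g • M} :=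
    { toFun := fun x => ⟨g • x.1, (Finset.smul_mem_smul_finset_iff g).mpr x.2⟩
      invFun := fun x => ⟨g⁻¹ • x.1, Finset.inv_smul_mem_iff.mpr x.2⟩
      left_inv := fun x => Subtype.ext (inv_smul_smul g x.1)
      right_inv := fun x => Subtype.ext (smul_inv_smul g x.1) } with he
  rw [lext, lext]
  refine Nat.card_congr
    ⟨fun f => ⟨(e.trans f.1).trans (finCongr hc), fun a b hab => ?_⟩,
      fun f => ⟨(e.symm.trans f.1).trans (finCongr hc.symm), fun a b hab => ?_⟩,
      fun f => ?_, fun f => ?_⟩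
  · have h1 : e a < e b := hr g _ _ hab
    exact f.2 h1
  · have h1 : e.symm a < e.symm b := hr g⁻¹ _ _ hab
    exact f.2 h1
  · apply Subtype.ext
    ext x
    simp
  · apply Subtype.ext
    ext x
    simp

theorem card_Sol_smul (ω : P → ℕ) (hr : ∀ (g : G) (a b : P), a < b → g • a < g • b)
    (M : Finset P) (m : ℕ) (g : G) :
    Nat.card (Sol ω (g • M) (ones m)) = Nat.card (Sol ω M (ones m)) := by
  by_cases h : M.card = m
  · have h1 := card_Sol_ones ω (g • M)
    rw [Finset.card_smul_finset, h] at h1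
    have h2 := card_Sol_ones ω M
    rw [h] at h2
    rw [h1, h2, lext_smul hr]
  · rw [card_Sol_ne ω M h, card_Sol_ne ω (g • M) (by rwa [Finset.card_smul_finset])]

theorem wk_single {r : P → P → Prop} (hi : ∀ x, ¬ r x x) {ω : P → ℤ} {M I : Finset P}
    (h : I.card = 1) : Wk r ω M I ↔ I ⊆ M ∧ ∀ a ∈ M, ∀ b ∈ I, ¬ r a b := by
  obtain ⟨x, rfl⟩ := Finset.card_eq_one.mp h
  constructor
  · rintro ⟨h1, h2⟩
    refine ⟨h1, fun a ha b hb hab => ?_⟩
    have h3 := (h2 a ha b hb hab).1
    rw [Finset.mem_singleton] at h3 hb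
    rw [h3, hb] at hab
    exact hi _ hab
  · rintro ⟨h1, h2⟩
    exact ⟨h1, fun a ha b hb hab => absurd hab (h2 a ha b hb)⟩

/-- an invariant set whose number of linear extensions is not divisible by `p` consists of fixed
points -/
theorem fixed_of_not_dvd (hG : IsPGroup p G) (ω : P → ℕ) (hω : Function.Injective ω)
    (hr : ∀ (g : G) (a b : P), a < b → g • a < g • b) (m : ℕ) :
    ∀ M : Finset P, (∀ g : G, g • M = M) →
      ¬ (p : ℤ) ∣ (Nat.card (Sol ω M (ones m)) : ℤ) → ∀ x ∈ M, ∀ g : G, g • x = x := by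
  classical
  induction m with
  | zero =>
    intro M _ h x hx
    rw [ones, card_Sol_zero] at h
    split_ifs at h with h1
    · rw [h1] at hx
      simp at hx
    · exact absurd (dvd_zero _) h
  | succ m ih =>
    intro M hM h x hx
    rw [card_Sol_succ ω hω] at h
    set f : Finset P → ℤ := fun I =>
      if Wk (fun a b : P => a < b) (fun p => (ω p : ℤ)) M I ∧ I.card = 1 then
        (Nat.card (Sol ω (M \ I) (ones m)) : ℤ) else 0 with hf
    have h1 : ((∑ I ∈ (wks (fun a b : P => a < b) (fun p => (ω p : ℤ)) M) with I.card = 1,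
        Nat.card (Sol ω (M \ I) (ones m)) : ℕ) : ℤ) = ∑ I : Finset P, f I := by
      rw [hf, ← Finset.sum_filter, Nat.cast_sum]
      apply Finset.sum_congr _ (fun _ _ => rfl)
      ext I
      rw [Finset.mem_filter, Finset.mem_filter, mem_wks]
      simp
    rw [h1] at h
    have hwk : ∀ (g : G) (I : Finset P), I.card = 1 →
        (Wk (fun a b : P => a < b) (fun p => (ω p : ℤ)) M (g • I) ↔
          Wk (fun a b : P => a < b) (fun p => (ω p : ℤ)) M I) := by
      intro g I hI
      rw [wk_single (fun x => lt_irrefl x) hI,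
        wk_single (fun x => lt_irrefl x) (by rwa [Finset.card_smul_finset])]
      constructor
      · rintro ⟨h2, h3⟩
        refine ⟨fun y hy => ?_, fun a ha b hb hab => ?_⟩
        · have h4 := h2 ((Finset.smul_mem_smul_finset_iff g).mpr hy)
          rw [← hM g] at h4
          exact (Finset.smul_mem_smul_finset_iff g).mp h4
        · exact h3 _ (smul_mem_of_inv hM g ha) _ ((Finset.smul_mem_smul_finset_iff g).mpr hb)
            (hr g _ _ hab)
      · rintro ⟨h2, h3⟩
        refine ⟨fun y hy => ?_, fun a ha b hb hab => ?_⟩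
        · rw [← Finset.inv_smul_mem_iff] at hy
          have h4 := smul_mem_of_inv hM g (h2 hy)
          rwa [smul_inv_smul] at h4
        · rw [← Finset.inv_smul_mem_iff] at hb
          exact h3 _ (smul_mem_of_inv hM g⁻¹ ha) _ hb (hr g⁻¹ _ _ hab)
    have hfinv : ∀ (g : G) (I : Finset P), f (g • I) = f I := by
      intro g I
      rw [hf]
      beta_reduce
      rw [Finset.card_smul_finset]
      by_cases hI : I.card = 1
      · by_cases h2 : Wk (fun a b : P => a < b) (fun p => (ω p : ℤ)) M I
        · rw [if_pos ⟨(hwk g I hI).mpr h2, hI⟩, if_pos ⟨h2, hI⟩]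
          have h3 : M \ g • I = g • (M \ I) := by rw [Finset.smul_finset_sdiff, hM]
          rw [h3, card_Sol_smul ω hr]
        · rw [if_neg (fun h3 => h2 ((hwk g I hI).mp h3.1)), if_neg (fun h3 => h2 h3.1)]
      · rw [if_neg (fun h3 => hI h3.2), if_neg (fun h3 => hI h3.2)]
    have h2 : ∃ I : Finset P, (∀ g : G, g • I = I) ∧ ¬ (p : ℤ) ∣ f I := by
      by_contra hcon
      push Not at hcon
      exact h (dvd_sum_of_fixed hG f hfinv hcon)
    obtain ⟨I, hI, h3⟩ := h2
    rw [hf] at h3
    beta_reduce at h3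
    split_ifs at h3 with h4
    · by_cases hxI : x ∈ I
      · obtain ⟨y, hy⟩ := Finset.card_eq_one.mp h4.2
        intro g
        have h5 := hI g
        rw [hy, Finset.smul_finset_singleton, Finset.singleton_inj] at h5
        rw [hy, Finset.mem_singleton] at hxI
        rw [hxI]
        exact h5
      · apply ih (M \ I) _ h3 x (Finset.mem_sdiff.mpr ⟨hx, hxI⟩)
        intro g
        rw [Finset.smul_finset_sdiff, hM, hI]
    · exact absurd (dvd_zero _) h3

theorem LL_smul {w : P → ℤ} (h : Act G w) (ω : P → ℕ) (m : ℕ) (U M : Finset P) (g : G) :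
    LL ω m (g • U) (g • M) = LL ω m U M := by
  rw [LL, LL, card_Sol_smul ω (fun g a b hab => h.lt g hab)]
  have h1 : Dn (fun a b : P => a < b) (g • U) (g • M) ↔ Dn (fun a b : P => a < b) U M := by
    constructor
    · intro h2
      have h3 := h2.smul h g⁻¹
      rwa [inv_smul_smul, inv_smul_smul] at h3
    · exact fun h2 => h2.smul h g
  by_cases h2 : Dn (fun a b : P => a < b) U M
  · rw [if_pos h2, if_pos (h1.mpr h2)]
  · rw [if_neg h2, if_neg (fun h3 => h2 (h1.mp h3))]

/-- The criterion: everything outside the set of fixed points can be peeled off. -/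
theorem irreducible_of_peelF {Q : Subring R} (hQ : ∀ F : R, F ∈ Q ↔ IsQS F) (ω : P → ℕ)
    (hω : Function.Injective ω) [Nonempty P] (hG : IsPGroup p G)
    (h : Act G (fun x : P => (ω x : ℤ))) {F : Finset P} {k : ℕ} (hFc : F.card = p ^ k)
    (hFfix : ∀ x : P, x ∈ F ↔ ∀ g : G, g • x = x) (hFe : ¬ p ∣ lext F)
    (hpeel : PeelF G (fun a b : P => a < b) (fun x : P => (ω x : ℤ)) F univ) :
    Irreducible (GamQ hQ ω (univ : Finset P)) := by
  classical
  have hω' : Function.Injective (fun p => (ω p : ℤ)) := fun a b h => hω (by simpa using h)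
  have hFi : ∀ g : G, g • F = F := by
    apply inv_of_smul_mem
    intro g x hx
    rw [(hFfix x).mp hx g]
    exact hx
  have hcF : (Nat.card (Sol ω F (ones (p ^ k))) : ℤ) = (lext F : ℤ) := by
    rw [← card_Sol_ones ω F, hFc]
  obtain ⟨l, hl⟩ := hpeel.exists_word (p := p) (B := LL ω (p ^ k)) hω' h hG
    (fun U _ M g => LL_smul h ω (p ^ k) U M g) hFi
    (fun U M hM hnd => by
      rw [LL] at hnd
      split_ifs at hnd with h1
      · have h2 : M.card = p ^ k := by
          by_contra h3
          apply hnd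
          rw [card_Sol_ne ω M h3]
          exact dvd_zero _
        have h3 : M ⊆ F := by
          intro x hx
          rw [hFfix]
          exact fixed_of_not_dvd hG ω hω (fun g a b hab => h.lt g hab) (p ^ k) M hM hnd x hx
        exact (Finset.eq_of_subset_of_card_le h3 (by omega)).ge
      · exact absurd (dvd_zero _) hnd)
    (fun U hU hd => by
      rw [LL, if_pos hU, hcF] at hd
      exact hFe (by exact_mod_cast hd))
  refine irreducible_of_wordB hQ ω hω hp.out k l (hl univ (fun a _ b _ => Finset.mem_univ b)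
    (fun g => Finset.smul_finset_univ) ⟨subset_rfl, fun a _ _ _ _ => Finset.mem_univ a⟩)

end

end Pool.Agent.Lib.MP_5bc52d_co
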